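import Pool.Agent.Run7.h96.IX.Stm
/-! Project IX (helper96), piece EX. -/
set_option autoImplicit false
open Finset Filter Topology

namespace Run7.h646.IX
open Run7.h96.IX

theorem t_EX : S_PAD → S_EX := by
  intro hPAD l γ v η hl0 hl1 hγ hv0 hv2 hη H lam c hc hlam hcc
  obtain ⟨-, hpad, -, hlarge⟩ := hPAD
  set A0 : ℝ := |v - γ + η| + η / 8 with hA0d
  have hA0 : 0 < A0 := by positivity
  obtain ⟨ε, hε0, hε4, hεA⟩ : ∃ ε : ℝ, 0 < ε ∧ ε ≤ 1 / 4 ∧ A0 * ε ≤ η / 4 := by
    refine ⟨min (1 / 4) (η / (4 * A0)), by positivity, min_le_left _ _, ?_⟩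
    calc A0 * min (1 / 4) (η / (4 * A0)) ≤ A0 * (η / (4 * A0)) :=
          mul_le_mul_of_nonneg_left (min_le_right _ _) hA0.le
      _ = η / 4 := by field_simp
  have hl1' : 0 < 1 - l := by linarith
  set δ : ℝ := min (min (l * ε / 3) ((1 - l) * ε / 3)) (η / 8) with hδd
  have hδ0 : 0 < δ := by positivity
  have hδl : 3 * δ ≤ l * ε := by
    have : δ ≤ l * ε / 3 := (min_le_left _ _).trans (min_le_left _ _)
    linarith
  have hδl' : 3 * δ ≤ (1 - l) * ε := by
    have : δ ≤ (1 - l) * ε / 3 := (min_le_left _ _).trans (min_le_right _ _)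
    linarith
  have hδη : δ ≤ η / 8 := min_le_right _ _
  obtain ⟨p, hp, hp1, hp2, hp3⟩ := H δ hδ0
  obtain ⟨n0, hn0⟩ := hp δ hδ0
  have e1 : ∀ᶠ n : ℕ in atTop, |(lam n : ℝ) / n - l| < δ := by
    have := (Metric.tendsto_nhds.mp hlam) δ hδ0
    simpa only [Real.dist_eq] using this
  have e2 : ∀ᶠ n : ℕ in atTop, |(-Real.logb 2 (c n) / n) - γ| < η / 8 := by
    have := (Metric.tendsto_nhds.mp hcc) (η / 8) (by positivity)
    simpa only [Real.dist_eq] using this
  have e3 : ∀ᶠ n : ℕ in atTop, 2 * ((n0 : ℝ) + 2) + 2 * (A0 + 2) / η ≤ (n : ℝ) :=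
    tendsto_natCast_atTop_atTop.eventually_ge_atTop _
  filter_upwards [e1, e2, e3, eventually_gt_atTop 0] with n h1 h2 h3 hn
  have hnr : (0 : ℝ) < n := by exact_mod_cast hn
  have hn0r : (0 : ℝ) ≤ n0 := Nat.cast_nonneg _
  have hq : 0 ≤ 2 * (A0 + 2) / η := by positivity
  have h3a : 2 * ((n0 : ℝ) + 2) ≤ n := by linarith
  have h3b : A0 + 2 ≤ η / 2 * n := by
    have h5 : 2 * (A0 + 2) / η ≤ n := by linarith
    rw [div_le_iff₀ hη] at h5
    linarith
  set k : ℕ := ⌈ε * n⌉₊ with hk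
  have hk1 : ε * n ≤ (k : ℝ) := Nat.le_ceil _
  have hk2 : (k : ℝ) < ε * n + 1 := Nat.ceil_lt_add_one (by positivity)
  have hεn : ε * n ≤ n / 4 := by
    have := mul_le_mul_of_nonneg_right hε4 hnr.le
    linarith
  have hkn : k ≤ n := by
    have : (k : ℝ) ≤ n := by linarith
    exact_mod_cast this
  have hcast : ((n - k : ℕ) : ℝ) = n - k := by rw [Nat.cast_sub hkn]
  have hn'' : n0 ≤ n - k := by
    have : (n0 : ℝ) ≤ ((n - k : ℕ) : ℝ) := by rw [hcast]; linarith
    exact_mod_cast this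
  obtain ⟨P, K, lam', hP, hK, hAch, hP1, hK1, hL1⟩ := hn0 (n - k) hn''
  rw [hcast] at hP1 hK1 hL1
  have hnk0 : (0 : ℝ) ≤ (n : ℝ) - k := by rw [← hcast]; exact Nat.cast_nonneg _
  have hk0 : (0 : ℝ) ≤ k := Nat.cast_nonneg _
  -- lam
  have hlam1 : |(lam n : ℝ) - l * n| ≤ δ * n := by
    have : (lam n : ℝ) - l * n = ((lam n : ℝ) / n - l) * n := by field_simp
    rw [this, abs_mul, abs_of_pos hnr]
    exact mul_le_mul_of_nonneg_right h1.le hnr.le
  have hlam2 : |(lam' : ℝ) - l * (n - k)| ≤ 2 * δ * (n - k) := by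
    have e : (lam' : ℝ) - l * (n - k) = ((lam' : ℝ) - p.2.2 * (n - k)) + (p.2.2 - l) * (n - k) := by
      ring
    rw [e]
    refine (abs_add_le _ _).trans ?_
    rw [abs_mul, abs_of_nonneg hnk0]
    have := mul_le_mul_of_nonneg_right hp3.le hnk0
    linarith
  rw [abs_le] at hlam1 hlam2
  have hnkn : 2 * δ * ((n : ℝ) - k) ≤ 2 * δ * n := by
    have : (n : ℝ) - k ≤ n := by linarith
    exact mul_le_mul_of_nonneg_left this (by positivity)
  have hlk : l * (ε * n) ≤ l * k := mul_le_mul_of_nonneg_left hk1 hl0.le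
  have hlk' : (1 - l) * (ε * n) ≤ (1 - l) * k := mul_le_mul_of_nonneg_left hk1 hl1'.le
  have hδn1 : 3 * δ * n ≤ l * ε * n := mul_le_mul_of_nonneg_right hδl hnr.le
  have hδn2 : 3 * δ * n ≤ (1 - l) * ε * n := mul_le_mul_of_nonneg_right hδl' hnr.le
  have ht0 : lam' ≤ lam n := by
    have : (lam' : ℝ) ≤ lam n := by linarith [hlam1.1, hlam2.2]
    exact_mod_cast this
  have ht1 : lam n - lam' ≤ k := by
    have : ((lam n : ℝ)) ≤ k + lam' := by linarith [hlam1.2, hlam2.1]
    have h' : lam n ≤ k + lam' := by exact_mod_cast this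
    omega
  have hA1 : Ach n P K (lam n) := by
    have := hpad (n - k) P K lam' k (lam n - lam') ht1 hAch
    rwa [Nat.sub_add_cancel hkn, Nat.add_sub_cancel' ht0] at this
  -- m
  set X : ℝ := (2 : ℝ) ^ (v * n / 2) with hX
  have hX1 : 1 ≤ X := Real.one_le_rpow (by norm_num) (by positivity)
  set m : ℕ := ⌈X⌉₊ with hm
  have hm1 : X ≤ (m : ℝ) := Nat.le_ceil _
  have hm2 : (m : ℝ) < X + 1 := Nat.ceil_lt_add_one (by positivity)
  have hKr : (0 : ℝ) < K := by exact_mod_cast hK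
  have hPr : (0 : ℝ) < P := by exact_mod_cast hP
  have hKm : K ≤ m := by
    have hlogK : Real.logb 2 K ≤ v * n / 2 := by
      have h5 : (p.2.1 + δ) * ((n : ℝ) - k) ≤ v * (n - k) :=
        mul_le_mul_of_nonneg_right (by linarith) hnk0
      have h6 : v * ((n : ℝ) - k) ≤ v * n := mul_le_mul_of_nonneg_left (by linarith) hv0.le
      linarith
    have : (K : ℝ) ≤ X := by
      rw [hX, ← Real.logb_le_iff_le_rpow (by norm_num) hKr]
      exact hlogK
    exact_mod_cast this.trans hm1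
  have hmn : m ≤ 2 ^ n := by
    rw [hm, Nat.ceil_le]
    push_cast
    rw [← Real.rpow_natCast, hX]
    apply Real.rpow_le_rpow_of_exponent_le (by norm_num)
    have := mul_le_mul_of_nonneg_right hv2.le hnr.le
    linarith
  have hA2 : Ach n P m (lam n) := hlarge n P K (lam n) m hA1 hKm hmn
  obtain ⟨A, B, hA, hB, hAB⟩ := hA2
  have hXX : X * X = (2 : ℝ) ^ (v * n) := by
    rw [hX, ← Real.rpow_add (by norm_num)]
    congr 1
    ring
  refine ⟨m, ⟨A, B, hA, hB, ?_⟩, ?_⟩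
  · have hcP : c n * (m : ℝ) ^ 2 ≤ P := by
      have hm4 : (m : ℝ) ^ 2 ≤ 4 * (2 : ℝ) ^ (v * n) := by
        have h2X : (m : ℝ) ≤ 2 * X := by linarith
        calc (m : ℝ) ^ 2 ≤ (2 * X) ^ 2 := pow_le_pow_left₀ (Nat.cast_nonneg _) h2X 2
          _ = 4 * (2 : ℝ) ^ (v * n) := by rw [← hXX]; ring
      have hlogc : Real.logb 2 (c n) ≤ (-γ + η / 8) * n := by
        have h5 := (abs_lt.mp h2).1
        have h6 : γ - η / 8 < -Real.logb 2 (c n) / n := by linarith
        rw [lt_div_iff₀ hnr] at h6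
        linarith
      have hc1 : c n ≤ (2 : ℝ) ^ ((-γ + η / 8) * n) := by
        rw [← Real.logb_le_iff_le_rpow (by norm_num) (hc n)]
        exact hlogc
      have hPX : (2 : ℝ) ^ ((v - γ + η / 8) * n + 2) ≤ P := by
        rw [← Real.le_logb_iff_rpow_le (by norm_num) hPr]
        refine le_trans ?_ hP1
        have hA : |v - γ + η - δ| ≤ A0 := by
          refine (abs_sub _ _).trans ?_
          rw [abs_of_pos hδ0]
          linarith
        have h5 : (v - γ + η - δ) * ((n : ℝ) - k) ≤ (p.1 - δ) * (n - k) :=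
          mul_le_mul_of_nonneg_right (by linarith) hnk0
        have h6 : (v - γ + η - δ) * k ≤ A0 * (ε * n + 1) := by
          calc (v - γ + η - δ) * k ≤ |v - γ + η - δ| * k :=
                mul_le_mul_of_nonneg_right (le_abs_self _) hk0
            _ ≤ A0 * (ε * n + 1) := mul_le_mul hA hk2.le hk0 hA0.le
        have h7 : A0 * ε * n ≤ η / 4 * n := mul_le_mul_of_nonneg_right hεA hnr.le
        have h8 : δ * n ≤ η / 8 * n := mul_le_mul_of_nonneg_right hδη hnr.le
        linarith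
      calc c n * (m : ℝ) ^ 2 ≤ (2 : ℝ) ^ ((-γ + η / 8) * n) * (4 * (2 : ℝ) ^ (v * n)) :=
            mul_le_mul hc1 hm4 (by positivity) (by positivity)
        _ = (2 : ℝ) ^ ((v - γ + η / 8) * n + 2) := by
            have h4 : (4 : ℝ) = (2 : ℝ) ^ (2 : ℝ) := by norm_num
            rw [h4, ← Real.rpow_add (by norm_num), ← Real.rpow_add (by norm_num)]
            congr 1
            ring
        _ ≤ P := hPX
    exact hcP.trans (by exact_mod_cast hAB)
  · rw [← hXX, pow_two]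
    exact mul_self_le_mul_self (by positivity) hm1

end Run7.h646.IX

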